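import Pool.Agent.N818.SN.Stm
import Pool.Agent.Y809.BSD14.Tam2

/-!
# Project SN (helper818), part TC (helper271): Tamagawa numbers of `y² = x³ - 14 n x² + n² x`
-/

set_option autoImplicit false

namespace Pool.Agent.N271.SN

open WeierstrassCurve
open Pool.Agent.N818.SN (Fm WC base IsTamagawa SingularReduction cC S_TC)
open Pool.Agent.Y700 (PtP SingRed E0 tam)
open Pool.Agent.Y809.BSD14 (index_of t_E0 line_rel t_TGOOD nadd nsub nmul npow nneg ladd lneg lsub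
  lmul lmul' toZMod_eq_zero)

open scoped Classical

section gen

variable {K : Type} [Field K] {W : WeierstrassCurve.Affine K} {A B : K}

/-- `y² = x³ + A x² + B x` -/
structure IsC (W : WeierstrassCurve.Affine K) (A B : K) : Prop where
  a1 : W.a₁ = 0
  a2 : W.a₂ = A
  a3 : W.a₃ = 0
  a4 : W.a₄ = B
  a6 : W.a₆ = 0

theorem IsC.eqn (h : IsC W A B) {x y : K} :
    W.Equation x y ↔ y ^ 2 = x ^ 3 + A * x ^ 2 + B * x := by
  rw [Affine.equation_iff, h.a1, h.a2, h.a3, h.a4, h.a6]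
  constructor <;> intro e <;> linear_combination e

theorem IsC.negY (h : IsC W A B) (x y : K) : W.negY x y = -y := by
  rw [Affine.negY, h.a1, h.a3]
  ring

theorem IsC.dbl (h : IsC W A B) {x : K} (hT : W.Nonsingular x 0) :
    (Affine.Point.some x 0 hT : W.Point) + Affine.Point.some x 0 hT = 0 := by
  apply Affine.Point.add_self_of_Y_eq
  rw [h.negY, neg_zero]

theorem IsC.y_of_dbl (h : IsC W A B) (h2 : (2 : K) ≠ 0) {x y : K} (hT : W.Nonsingular x y)
    (hd : (Affine.Point.some x y hT : W.Point) + Affine.Point.some x y hT = 0) : y = 0 := by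
  have h1 : (Affine.Point.some x y hT : W.Point) = -Affine.Point.some x y hT :=
    eq_neg_of_add_eq_zero_left hd
  rw [Affine.Point.neg_some] at h1
  obtain ⟨_, e2⟩ := Affine.Point.some.inj h1
  rw [h.negY] at e2
  have e3 : 2 * y = 0 := by linear_combination e2
  exact (mul_eq_zero.1 e3).resolve_left h2

theorem IsC.add_T (h : IsC W A B) {x y e : K} (hP : W.Nonsingular x y)
    (hT : W.Nonsingular e 0) (hx : x ≠ e) :
    ∃ (x3 y3 : K) (h3 : W.Nonsingular x3 y3),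
      (Affine.Point.some x y hP : W.Point) + Affine.Point.some e 0 hT =
        Affine.Point.some x3 y3 h3 ∧ (x3 - e) * (x - e) = 3 * e ^ 2 + 2 * A * e + B := by
  have hxy : ¬(x = e ∧ y = W.negY e 0) := fun hh => hx hh.1
  refine ⟨_, _, Affine.nonsingular_add hP hT hxy, Affine.Point.add_some hxy, ?_⟩
  set l := W.slope x e y 0 with hl
  have h0 : x - e ≠ 0 := sub_ne_zero.2 hx
  have hl2 : l = (y - 0) / (x - e) := Affine.slope_of_X_ne hx
  have hl3 : l * (x - e) = y := by rw [hl2, div_mul_cancel₀ _ h0, sub_zero]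
  rw [Affine.addX, h.a1, h.a2]
  have e1 := h.eqn.1 hP.1
  have e2 := h.eqn.1 hT.1
  have e3 : l ^ 2 * (x - e) = x ^ 2 + x * e + e ^ 2 + A * (x + e) + B := by
    apply mul_right_cancel₀ h0
    rw [← hl3] at e1
    linear_combination e1 - e2
  linear_combination e3

theorem IsC.prod (h : IsC W A B) {x₁ y₁ x₂ y₂ : K} (h₁ : W.Nonsingular x₁ y₁)
    (h₂ : W.Nonsingular x₂ y₂) (hxy : ¬(x₁ = x₂ ∧ y₁ = W.negY x₂ y₂)) :
    ∃ c : K, x₁ * x₂ * W.addX x₁ x₂ (W.slope x₁ x₂ y₁ y₂) = c ^ 2 := by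
  obtain ⟨r1, r2, r3⟩ := line_rel h₁.1 h₂.1 hxy
  rw [h.a1, h.a2] at r2
  rw [h.a1, h.a3, h.a4] at r3
  have e1 := h.eqn.1 h₁.1
  refine ⟨y₁ - W.slope x₁ x₂ y₁ y₂ * x₁, ?_⟩
  set l := W.slope x₁ x₂ y₁ y₂ with hl
  set x₃ := W.addX x₁ x₂ l with hx3
  linear_combination (-x₁ ^ 2) * r2 + x₁ * r3 + e1 * (-1)

end gen

section padic

variable {p : ℕ} [hp : Fact p.Prime]

theorem isCp (n : ℕ) : IsC ((WC n).map (Int.castRingHom ℚ_[p])).toAffine
    (-14 * (n : ℚ_[p])) ((n : ℚ_[p]) ^ 2) := by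
  constructor <;> simp [WC]

theorem Delta (n : ℕ) : (WC n).Δ = 3072 * (n : ℤ) ^ 6 := by
  simp only [WC, WeierstrassCurve.Δ, WeierstrassCurve.b₂, WeierstrassCurve.b₄,
    WeierstrassCurve.b₆, WeierstrassCurve.b₈]
  ring

theorem nons {n : ℕ} (hn : n ≠ 0) {x y : ℚ_[p]}
    (h : y ^ 2 = x ^ 3 + -14 * (n : ℚ_[p]) * x ^ 2 + (n : ℚ_[p]) ^ 2 * x) :
    ((WC n).map (Int.castRingHom ℚ_[p])).toAffine.Nonsingular x y := by
  have hD : ((WC n).map (Int.castRingHom ℚ_[p])).toAffine.Δ ≠ 0 := by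
    show ((WC n).map (Int.castRingHom ℚ_[p])).Δ ≠ 0
    rw [WeierstrassCurve.map_Δ, Delta]
    intro h0
    have h1 : ((3072 * (n : ℤ) ^ 6 : ℤ) : ℚ_[p]) = 0 := h0
    have h2 : (3072 * (n : ℤ) ^ 6 : ℤ) = 0 := by exact_mod_cast h1
    have h3 : (n : ℤ) ≠ 0 := by exact_mod_cast hn
    have h4 : (n : ℤ) ^ 6 ≠ 0 := pow_ne_zero _ h3
    omega
  rw [← Affine.equation_iff_nonsingular_of_Δ_ne_zero hD]
  exact (isCp n).eqn.2 h

theorem sing_def (n : ℕ) (x y : ℚ_[p]) : SingRed (WC n) p x y ↔ ‖x‖ ≤ 1 ∧ ‖y‖ ≤ 1 ∧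
    ‖3 * x ^ 2 + 2 * (-14 * (n : ℚ_[p])) * x + (n : ℚ_[p]) ^ 2‖ < 1 ∧ ‖2 * y‖ < 1 := by
  unfold SingRed
  have e1 : ((WC n).a₁ : ℚ_[p]) * y - (3 * x ^ 2 + 2 * ((WC n).a₂ : ℚ_[p]) * x +
      ((WC n).a₄ : ℚ_[p])) = -(3 * x ^ 2 + 2 * (-14 * (n : ℚ_[p])) * x + (n : ℚ_[p]) ^ 2) := by
    simp only [WC]
    push_cast
    ring
  have e2 : 2 * y + ((WC n).a₁ : ℚ_[p]) * x + ((WC n).a₃ : ℚ_[p]) = 2 * y := by
    simp only [WC]
    push_cast
    ring
  rw [e1, e2, norm_neg]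

/-- the statement about the subgroup -/
theorem final {n : ℕ} {c : ℕ} (h : tam (WC n) p = c) :
    ∃ H : AddSubgroup (base (WC n) ℚ_[p]).toAffine.Point,
      (∀ P, P ∈ H ↔ ¬ SingularReduction (WC n) p P) ∧ H.index = c := by
  refine ⟨E0 (WC n) p, fun P => ?_, h⟩
  rw [t_E0]
  constructor
  · rintro h1 ⟨x, y, h2, he, hs⟩
    exact h1 x y h2 he hs
  · intro h1 x y h2 he hs
    exact h1 ⟨x, y, h2, he, hs⟩

theorem mem_E0 {n : ℕ} {x y : ℚ_[p]}
    (h : ((WC n).map (Int.castRingHom ℚ_[p])).toAffine.Nonsingular x y) :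
    (Affine.Point.some x y h : PtP (WC n) p) ∈ E0 (WC n) p ↔ ¬ SingRed (WC n) p x y := by
  rw [t_E0]
  constructor
  · intro h1
    exact h1 x y h rfl
  · intro h1 x' y' h' he
    obtain ⟨e1, e2⟩ := Affine.Point.some.inj he
    rw [← e1, ← e2]
    exact h1

theorem lt_iff_le (x : ℚ_[p]) : ‖x‖ < 1 ↔ ‖x‖ ≤ (p : ℝ)⁻¹ := by
  have h := Padic.norm_le_pow_iff_norm_lt_pow_add_one x (-1)
  rw [zpow_neg_one, neg_add_cancel, zpow_zero] at h
  exact h.symm

end padic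

section three

theorem dec9 : ∀ n x y : ZMod 9, 3 * n = 6 → y ^ 2 = x ^ 3 + -14 * n * x ^ 2 + n ^ 2 * x →
    3 * (2 * y) = 0 → 3 * (3 * x ^ 2 + 2 * (-14 * n) * x + n ^ 2) ≠ 0 := by
  decide +kernel

/-- the reduction modulo nine -/
noncomputable def f9 [Fact (Nat.Prime 3)] : ℤ_[3] →+* ZMod 9 := PadicInt.toZModPow 2

theorem f9_zero [Fact (Nat.Prime 3)] {z : ℤ_[3]} (h : ‖z‖ < 1) : 3 * f9 z = 0 := by
  rw [PadicInt.norm_lt_one_iff_dvd] at h
  obtain ⟨w, hw⟩ := h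
  rw [hw, map_mul, map_natCast]
  have e : (3 : ZMod 9) * (((3 : ℕ) : ZMod 9) * f9 w) = (9 : ZMod 9) * f9 w := by
    push_cast; ring
  rw [e]
  have e2 : (9 : ZMod 9) = 0 := by decide
  rw [e2, zero_mul]

theorem three [Fact (Nat.Prime 3)] {n : ℕ} (h3 : n % 3 = 2) : tam (WC n) 3 = 1 := by
  rw [tam, AddSubgroup.index_eq_one, eq_top_iff]
  intro P _
  rw [t_E0]
  rintro x y h rfl hs
  rw [sing_def] at hs
  obtain ⟨hx, hy, hf, h2⟩ := hs
  have hE := (isCp n).eqn.1 h.1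
  obtain ⟨X, rfl⟩ : ∃ X : ℤ_[3], (X : ℚ_[3]) = x := ⟨⟨x, hx⟩, rfl⟩
  obtain ⟨Y, rfl⟩ : ∃ Y : ℤ_[3], (Y : ℚ_[3]) = y := ⟨⟨y, hy⟩, rfl⟩
  have e1 : Y ^ 2 = X ^ 3 + -14 * (n : ℤ_[3]) * X ^ 2 + (n : ℤ_[3]) ^ 2 * X := by
    apply PadicInt.ext
    push_cast
    exact hE
  have e2 : 3 * f9 (3 * X ^ 2 + 2 * (-14 * (n : ℤ_[3])) * X + (n : ℤ_[3]) ^ 2) = 0 := by
    apply f9_zero
    rw [PadicInt.norm_def]
    push_cast
    exact hf
  have e3 : 3 * f9 (2 * Y) = 0 := by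
    apply f9_zero
    rw [PadicInt.norm_def]
    push_cast
    exact h2
  have e4 := congrArg (f9 : ℤ_[3] → ZMod 9) e1
  simp only [map_add, map_mul, map_pow, map_neg, map_natCast, map_ofNat] at e2 e3 e4
  refine dec9 (n : ZMod 9) (f9 X) (f9 Y) ?_ e4 e3 e2
  obtain ⟨k, hk⟩ : ∃ k, n = 3 * k + 2 := ⟨n / 3, by omega⟩
  rw [hk]
  push_cast
  have e2 : (9 : ZMod 9) = 0 := by decide
  linear_combination (k : ZMod 9) * e2

end three

section two

theorem dec64 : ∀ n : ZMod 64, 8 * n = 24 → ∀ x : ZMod 64, 32 * x = 32 → ∀ y : ZMod 64,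
    y ^ 2 = x ^ 3 + -14 * n * x ^ 2 + n ^ 2 * x → 8 * x = 40 := by
  decide +kernel

theorem dec64u : ∀ u v : ZMod 64, u * v = 1 → 32 * u = 32 := by
  decide +kernel

theorem dec64c : ∀ c : ZMod 64, 8 * c ^ 2 ≠ 40 := by
  decide +kernel


/-- the reduction modulo 64 -/
noncomputable def f64 [Fact (Nat.Prime 2)] : ℤ_[2] →+* ZMod 64 := PadicInt.toZModPow 6

theorem f64_unit [Fact (Nat.Prime 2)] {z : ℤ_[2]} (h : ‖z‖ = 1) : 32 * f64 z = 32 := by
  obtain ⟨u, hu⟩ := (PadicInt.isUnit_iff.2 h).map (f64 : ℤ_[2] →+* ZMod 64)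
  rw [← hu]
  exact dec64u _ _ u.mul_inv

theorem nat_unit [Fact (Nat.Prime 2)] {n : ℕ} (hn : n % 2 = 1) : ‖(n : ℚ_[2])‖ = 1 := by
  rw [Padic.norm_natCast_eq_one_iff]
  exact (Nat.coprime_two_left).2 (Nat.odd_iff.2 hn)

theorem sing2 [Fact (Nat.Prime 2)] {n : ℕ} (hn : n % 2 = 1) {x y : ℚ_[2]}
    (h : ((WC n).map (Int.castRingHom ℚ_[2])).toAffine.Nonsingular x y) :
    SingRed (WC n) 2 x y ↔ ‖x‖ = 1 := by
  have hE := (isCp n).eqn.1 h.1
  have hN := nat_unit hn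
  have h2 : ‖(2 : ℚ_[2])‖ < 1 := by
    have := Padic.norm_p_lt_one (p := 2)
    exact_mod_cast this
  rw [sing_def]
  constructor
  · rintro ⟨hx, hy, hf, -⟩
    by_contra hne
    have hx1 : ‖x‖ < 1 := lt_of_le_of_ne hx hne
    have e1 : (n : ℚ_[2]) ^ 2 = (3 * x ^ 2 + 2 * (-14 * (n : ℚ_[2])) * x + (n : ℚ_[2]) ^ 2) -
        (3 * x + 2 * (-14 * (n : ℚ_[2]))) * x := by ring
    have hk : ∀ k : ℤ, ‖(k : ℚ_[2])‖ ≤ 1 := fun k => Padic.norm_int_le_one k
    have e2 : ‖3 * x + 2 * (-14 * (n : ℚ_[2]))‖ ≤ 1 := by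
      have h3 := hk 3
      have h4 := hk (-28 * n)
      push_cast at h3 h4
      have e3 : 3 * x + 2 * (-14 * (n : ℚ_[2])) = 3 * x + -28 * (n : ℚ_[2]) := by ring
      rw [e3]
      exact nadd (nmul h3 hx) h4
    have e3 : ‖(n : ℚ_[2]) ^ 2‖ < 1 := by
      rw [e1]
      exact lsub hf (lmul e2 hx1)
    rw [norm_pow, hN, one_pow] at e3
    exact lt_irrefl _ e3
  · intro hx
    have hk : ∀ k : ℤ, ‖(k : ℚ_[2])‖ ≤ 1 := fun k => Padic.norm_int_le_one k
    have hy : ‖y‖ ≤ 1 := by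
      have e1 : ‖y ^ 2‖ ≤ 1 := by
        rw [hE]
        have h4 := hk (-14 * n)
        have h5 := hk (n ^ 2)
        push_cast at h4 h5
        exact nadd (nadd (npow hx.le 3) (nmul h4 (npow hx.le 2))) (nmul h5 hx.le)
      rw [norm_pow] at e1
      nlinarith [norm_nonneg y]
    refine ⟨hx.le, hy, ?_, ?_⟩
    · by_contra hlt
      obtain ⟨X, rfl⟩ : ∃ X : ℤ_[2], (X : ℚ_[2]) = x := ⟨⟨x, hx.le⟩, rfl⟩
      have e1 : ‖(3 * X ^ 2 + 2 * (-14 * (n : ℤ_[2])) * X + (n : ℤ_[2]) ^ 2 : ℤ_[2])‖ = 1 := by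
        refine le_antisymm (PadicInt.norm_le_one _) ?_
        rw [PadicInt.norm_def]
        push_cast
        exact not_lt.1 hlt
      have e2 := f64_unit e1
      have e3 : 32 * f64 X = 32 := f64_unit hx
      have e4 : 32 * f64 (n : ℤ_[2]) = 32 := f64_unit (by
        rw [PadicInt.norm_def]
        push_cast
        exact hN)
      simp only [map_add, map_mul, map_pow, map_neg, map_natCast, map_ofNat] at e2 e4
      have e5 : (32 : ZMod 64) * (3 * f64 X ^ 2 + 2 * (-14 * (n : ZMod 64)) * f64 X +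
          (n : ZMod 64) ^ 2) = 64 * (2 - 14 * (n : ZMod 64) * f64 X) := by
        linear_combination (3 * f64 X + 3) * e3 + ((n : ZMod 64) + 1) * e4
      have e6 : (64 : ZMod 64) = 0 := by decide
      rw [e5, e6, zero_mul] at e2
      exact absurd e2 (by decide)
    · exact lmul' h2 hy

/-- the unit first coordinates are congruent to five modulo eight -/
theorem five [Fact (Nat.Prime 2)] {n : ℕ} (hn : n % 8 = 3) {x y : ℚ_[2]}
    (h : ((WC n).map (Int.castRingHom ℚ_[2])).toAffine.Nonsingular x y) (hx : ‖x‖ = 1) :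
    ∃ X : ℤ_[2], (X : ℚ_[2]) = x ∧ 8 * f64 X = 40 := by
  have hE := (isCp n).eqn.1 h.1
  have hs := (sing2 (by omega) h).2 hx
  rw [sing_def] at hs
  obtain ⟨X, rfl⟩ : ∃ X : ℤ_[2], (X : ℚ_[2]) = x := ⟨⟨x, hs.1⟩, rfl⟩
  obtain ⟨Y, rfl⟩ : ∃ Y : ℤ_[2], (Y : ℚ_[2]) = y := ⟨⟨y, hs.2.1⟩, rfl⟩
  refine ⟨X, rfl, ?_⟩
  have e1 : Y ^ 2 = X ^ 3 + -14 * (n : ℤ_[2]) * X ^ 2 + (n : ℤ_[2]) ^ 2 * X := by
    apply PadicInt.ext
    push_cast
    exact hE
  have e4 := congrArg (f64 : ℤ_[2] → ZMod 64) e1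
  simp only [map_add, map_mul, map_pow, map_neg, map_natCast, map_ofNat] at e4
  refine dec64 (n : ZMod 64) ?_ (f64 X) (f64_unit hx) (f64 Y) e4
  obtain ⟨k, hk⟩ : ∃ k, n = 8 * k + 3 := ⟨n / 8, by omega⟩
  rw [hk]
  push_cast
  have e2 : (64 : ZMod 64) = 0 := by decide
  linear_combination (k : ZMod 64) * e2

/-- numbers congruent to one modulo eight are squares -/
theorem sq8 [Fact (Nat.Prime 2)] (u : ℤ) (hu : (8 : ℤ) ∣ u - 1) : ∃ s : ℤ_[2], s ^ 2 = u := by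
  have h1 : ‖(((u - 1 : ℤ)) : ℤ_[2])‖ ≤ ((2 : ℕ) : ℝ) ^ (-(3 : ℕ) : ℤ) := by
    rw [PadicInt.norm_int_le_pow_iff_dvd]
    norm_num
    exact hu
  have h2 : ‖(2 : ℤ_[2])‖ = (2 : ℝ)⁻¹ := by
    have := PadicInt.norm_p (p := 2)
    exact_mod_cast this
  obtain ⟨z, hz, -⟩ := hensels_lemma (p := 2) (R := ℤ_[2])
    (F := (Polynomial.X ^ 2 - Polynomial.C (u : ℤ_[2]))) (a := (1 : ℤ_[2])) (by
      simp only [map_sub, map_pow, Polynomial.aeval_X, Polynomial.aeval_C,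
        Polynomial.derivative_X_pow, Polynomial.derivative_C, sub_zero, map_mul, one_pow, mul_one]
      simp only [Nat.cast_ofNat, Algebra.algebraMap_self, RingHom.id_apply,
        map_ofNat]
      rw [h2]
      have e1 : ‖(1 : ℤ_[2]) - (u : ℤ_[2])‖ = ‖(((u - 1 : ℤ)) : ℤ_[2])‖ := by
        rw [← norm_neg]
        push_cast
        congr 1
        ring
      rw [e1]
      refine lt_of_le_of_lt h1 ?_
      norm_num)
  refine ⟨z, ?_⟩
  simp only [map_sub, map_pow, Polynomial.aeval_X, Polynomial.aeval_C, Algebra.algebraMap_self,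
    RingHom.id_apply] at hz
  exact sub_eq_zero.1 hz

theorem two [Fact (Nat.Prime 2)] {n : ℕ} (hn : n % 8 = 3) : tam (WC n) 2 = 2 := by
  have hn2 : n % 2 = 1 := by omega
  have hn0 : n ≠ 0 := by omega
  obtain ⟨s, hs⟩ := sq8 (-21 * (n : ℤ) ^ 3) (by
    obtain ⟨k, hk⟩ : ∃ k, n = 8 * k + 3 := ⟨n / 8, by omega⟩
    rw [hk]
    push_cast
    exact ⟨-(1344 * k ^ 3 + 1512 * k ^ 2 + 567 * k + 71), by ring⟩)
  have hs' : (s : ℚ_[2]) ^ 2 = -21 * (n : ℚ_[2]) ^ 3 := by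
    have := congrArg (fun z : ℤ_[2] => (z : ℚ_[2])) hs
    push_cast at this
    exact this
  have hR := nons (p := 2) hn0 (x := 7 * (n : ℚ_[2])) (y := 4 * (s : ℚ_[2])) (by
    linear_combination 16 * hs')
  have h7 : ‖(7 * (n : ℚ_[2]))‖ = 1 := by
    have := nat_unit (n := 7 * n) (by omega)
    push_cast at this
    exact this
  rw [tam, AddSubgroup.index_eq_two_iff_exists_notMem_and]
  refine ⟨Affine.Point.some _ _ hR, ?_, fun P => ?_⟩
  · rw [mem_E0, not_not]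
    exact (sing2 hn2 hR).2 h7
  · by_cases hP : P ∈ E0 (WC n) 2
    · exact Or.inr hP
    left
    rcases P with _ | ⟨x, y, h⟩
    · exact absurd (E0 (WC n) 2).zero_mem hP
    have hx : ‖x‖ = 1 := by
      rw [mem_E0, not_not] at hP
      exact (sing2 hn2 h).1 hP
    by_cases hxy : x = 7 * (n : ℚ_[2]) ∧
        y = ((WC n).map (Int.castRingHom ℚ_[2])).toAffine.negY (7 * (n : ℚ_[2])) (4 * (s : ℚ_[2]))
    · rw [Affine.Point.add_of_Y_eq hxy.1 hxy.2]
      exact (E0 (WC n) 2).zero_mem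
    · rw [Affine.Point.add_some hxy, mem_E0, sing2 hn2 (Affine.nonsingular_add h hR hxy)]
      intro h3
      obtain ⟨c, hc⟩ := (isCp n).prod h hR hxy
      obtain ⟨X1, hX1, f1⟩ := five hn h hx
      obtain ⟨X2, hX2, f2⟩ := five hn hR h7
      obtain ⟨X3, hX3, f3⟩ := five hn (Affine.nonsingular_add h hR hxy) h3
      have hc1 : ‖c‖ ≤ 1 := by
        have e1 : ‖c ^ 2‖ = 1 := by
          rw [← hc, norm_mul, norm_mul, hx, h7, h3]
          norm_num
        rw [norm_pow] at e1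
        nlinarith [norm_nonneg c]
      obtain ⟨C, rfl⟩ : ∃ C : ℤ_[2], (C : ℚ_[2]) = c := ⟨⟨c, hc1⟩, rfl⟩
      have e2 : X1 * X2 * X3 = C ^ 2 := by
        apply PadicInt.ext
        push_cast
        rw [hX1, hX2, hX3]
        exact hc
      have e3 := congrArg (f64 : ℤ_[2] → ZMod 64) e2
      simp only [map_mul, map_pow] at e3
      refine dec64c (f64 C) ?_
      rw [← e3]
      have e4 : (1000 : ZMod 64) = 40 := by decide
      linear_combination f64 X2 * f64 X3 * f1 + 5 * f64 X3 * f2 + 25 * f3 + e4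

end two

section ram

variable {p : ℕ} [hp : Fact p.Prime] {n : ℕ}

theorem c3 : ((3 : ℤ_[p]) : ℚ_[p]) = 3 := rfl

theorem c4 : ((4 : ℤ_[p]) : ℚ_[p]) = 4 := rfl

theorem c7 : ((7 : ℤ_[p]) : ℚ_[p]) = 7 := rfl

theorem c14 : ((14 : ℤ_[p]) : ℚ_[p]) = 14 := rfl

theorem c28 : ((28 : ℤ_[p]) : ℚ_[p]) = 28 := rfl

theorem norm_n (hs : Squarefree n) (hpn : p ∣ n) : ‖(n : ℚ_[p])‖ = (p : ℝ)⁻¹ := by
  obtain ⟨m, rfl⟩ := hpn
  have hm : ¬ p ∣ m := by
    intro h
    obtain ⟨k, rfl⟩ := h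
    have := hs p ⟨k, by ring⟩
    exact hp.out.one_lt.ne' (Nat.isUnit_iff.1 this)
  rw [Nat.cast_mul, norm_mul, Padic.norm_p,
    Padic.norm_natCast_eq_one_iff.2 ((Nat.Prime.coprime_iff_not_dvd hp.out).2 hm), mul_one]

theorem inv_lt_one : (p : ℝ)⁻¹ < 1 := by
  have := Padic.norm_p_lt_one (p := p)
  rwa [Padic.norm_p] at this

theorem inv_pos' : 0 < (p : ℝ)⁻¹ := by
  have := hp.out.pos
  positivity

theorem norm_three (h3 : p ≠ 3) : ‖(3 : ℚ_[p])‖ = 1 := by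
  have := (Padic.norm_natCast_eq_one_iff (p := p) (n := 3)).2
    ((Nat.coprime_primes hp.out Nat.prime_three).2 h3)
  exact_mod_cast this

theorem norm_two (h2 : p ≠ 2) : ‖(2 : ℚ_[p])‖ = 1 := by
  have := (Padic.norm_natCast_eq_one_iff (p := p) (n := 2)).2
    ((Nat.coprime_primes hp.out Nat.prime_two).2 h2)
  exact_mod_cast this

theorem sing_ram (h3 : p ≠ 3) (hN : ‖(n : ℚ_[p])‖ < 1) {x y : ℚ_[p]}
    (h : ((WC n).map (Int.castRingHom ℚ_[p])).toAffine.Nonsingular x y) :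
    SingRed (WC n) p x y ↔ ‖x‖ < 1 := by
  have hE := (isCp n).eqn.1 h.1
  have hk : ∀ k : ℤ, ‖(k : ℚ_[p])‖ ≤ 1 := fun k => Padic.norm_int_le_one k
  rw [sing_def]
  constructor
  · rintro ⟨hx, hy, hf, -⟩
    have e1 : 3 * x ^ 2 = (3 * x ^ 2 + 2 * (-14 * (n : ℚ_[p])) * x + (n : ℚ_[p]) ^ 2) -
        (((-28 : ℤ) : ℚ_[p]) * x + n) * n := by push_cast; ring
    have e2 : ‖3 * x ^ 2‖ < 1 := by
      rw [e1]
      exact lsub hf (lmul (nadd (nmul (hk _) hx) hN.le) hN)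
    rw [norm_mul, norm_three h3, one_mul, norm_pow] at e2
    by_contra hc
    have : ‖x‖ = 1 := le_antisymm hx (not_lt.1 hc)
    rw [this] at e2
    norm_num at e2
  · intro hx
    have hf : ‖3 * x ^ 2 + 2 * (-14 * (n : ℚ_[p])) * x + (n : ℚ_[p]) ^ 2‖ < 1 := by
      have e1 : 3 * x ^ 2 + 2 * (-14 * (n : ℚ_[p])) * x + (n : ℚ_[p]) ^ 2 =
        (((3 : ℤ) : ℚ_[p]) * x + ((-28 : ℤ) : ℚ_[p]) * n) * x + n * n := by push_cast; ring
      rw [e1]
      exact ladd (lmul (nadd (nmul (hk _) hx.le) (nmul (hk _) hN.le)) hx) (lmul hN.le hN)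
    have hy : ‖y‖ < 1 := by
      have e1 : ‖y ^ 2‖ < 1 := by
        rw [hE]
        have e2 : x ^ 3 + -14 * (n : ℚ_[p]) * x ^ 2 + (n : ℚ_[p]) ^ 2 * x =
          (x ^ 2 + ((-14 : ℤ) : ℚ_[p]) * (n * x) + (n : ℚ_[p]) ^ 2) * x := by push_cast; ring
        rw [e2]
        exact lmul (nadd (nadd (npow hx.le 2) (nmul (hk _) (nmul hN.le hx.le))) (npow hN.le 2)) hx
      rw [norm_pow] at e1
      by_contra hc
      nlinarith [not_lt.1 hc]
    refine ⟨hx.le, hy.le, hf, ?_⟩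
    have := hk 2
    push_cast at this
    exact lmul this hy

/-- the first coordinates of the points with singular reduction -/
theorem key_ram (hs : Squarefree n) (hpn : p ∣ n) {x y : ℚ_[p]}
    (h : ((WC n).map (Int.castRingHom ℚ_[p])).toAffine.Nonsingular x y) (hx : ‖x‖ < 1) :
    ∃ X : ℤ_[p], x = n * (X : ℚ_[p]) ∧
      PadicInt.toZMod X * (PadicInt.toZMod X ^ 2 - 14 * PadicInt.toZMod X + 1) = 0 := by
  have hE := (isCp n).eqn.1 h.1
  have hN := norm_n (p := p) hs hpn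
  have hp0 := inv_pos' (p := p)
  have hn0 : (n : ℚ_[p]) ≠ 0 := by
    intro h0
    rw [h0, norm_zero] at hN
    rw [← hN] at hp0
    exact lt_irrefl _ hp0
  have hX : ‖x / n‖ ≤ 1 := by
    rw [norm_div, hN, div_le_one hp0]
    exact (lt_iff_le x).1 hx
  obtain ⟨X, hXe⟩ : ∃ X : ℤ_[p], (X : ℚ_[p]) = x / n := ⟨⟨x / n, hX⟩, rfl⟩
  have hxX : x = n * (X : ℚ_[p]) := by
    rw [hXe]
    field_simp
  refine ⟨X, hxX, ?_⟩
  have hg : PadicInt.toZMod (X * (X ^ 2 - 14 * X + 1)) = 0 := by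
    rw [toZMod_eq_zero]
    refine lt_of_le_of_ne (PadicInt.norm_le_one _) fun hg => ?_
    have e1 : y ^ 2 = (n : ℚ_[p]) ^ 3 * ((X * (X ^ 2 - 14 * X + 1) : ℤ_[p]) : ℚ_[p]) := by
      rw [hE, hxX]
      push_cast
      rw [c14]
      ring
    have e2 : ‖y‖ ^ 2 = ((p : ℝ)⁻¹) ^ 3 := by
      rw [← norm_pow, e1, norm_mul, norm_pow, hN, PadicInt.padic_norm_e_of_padicInt, hg, mul_one]
    have hy : y ≠ 0 := by
      intro h0
      rw [h0, norm_zero] at e2
      have : 0 < ((p : ℝ)⁻¹) ^ 3 := by positivity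
      rw [← e2] at this
      norm_num at this
    rw [Padic.norm_eq_zpow_neg_valuation hy, ← zpow_natCast, ← zpow_mul, ← zpow_neg_one,
      ← zpow_natCast, ← zpow_mul] at e2
    have hp1 : (1 : ℝ) < p := by exact_mod_cast hp.out.one_lt
    have e3 := zpow_right_injective₀ (by linarith) hp1.ne' e2
    push_cast at e3
    omega
  rw [← hg]
  simp only [map_mul, map_add, map_sub, map_pow, map_one, map_ofNat]

theorem y_zero {y : ℚ_[p]} (h : y ^ 2 = 0) : y = 0 := by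
  exact pow_eq_zero_iff (two_ne_zero) |>.1 h

/-- translation by a point of order two -/
theorem shift (h3 : p ≠ 3) (hs : Squarefree n) (hpn : p ∣ n) {x y : ℚ_[p]} {X e : ℤ_[p]}
    (h : ((WC n).map (Int.castRingHom ℚ_[p])).toAffine.Nonsingular x y)
    (hxX : x = n * (X : ℚ_[p])) (hXe : PadicInt.toZMod X = PadicInt.toZMod e)
    (hT : ((WC n).map (Int.castRingHom ℚ_[p])).toAffine.Nonsingular (n * (e : ℚ_[p])) 0)
    (he : PadicInt.toZMod (3 * e ^ 2 - 28 * e + 1) ≠ 0) :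
    (Affine.Point.some x y h + Affine.Point.some _ 0 hT : PtP (WC n) p) ∈ E0 (WC n) p := by
  have hN := norm_n (p := p) hs hpn
  have hp0 := inv_pos' (p := p)
  have hN1 : ‖(n : ℚ_[p])‖ < 1 := by rw [hN]; exact inv_lt_one
  by_cases hx : x = n * (e : ℚ_[p])
  · subst hx
    have hy : y = 0 := by
      have e1 := (isCp n).eqn.1 h.1
      have e2 := (isCp n).eqn.1 hT.1
      rw [← e2] at e1
      exact y_zero (by rw [e1]; norm_num)
    subst hy
    rw [(isCp n).dbl h]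
    exact (E0 (WC n) p).zero_mem
  · obtain ⟨x3, y3, hn3, he3, hx3⟩ := (isCp n).add_T h hT hx
    rw [he3, mem_E0, sing_ram h3 hN1 hn3]
    intro hlt
    have hd : ‖X - e‖ < 1 := by
      rw [← toZMod_eq_zero, map_sub, hXe, sub_self]
    have hd' : ‖((X - e : ℤ_[p]) : ℚ_[p])‖ ≤ (p : ℝ)⁻¹ := by
      rw [← lt_iff_le]
      exact hd
    have e1 : (x3 - n * (e : ℚ_[p])) * (n * ((X - e : ℤ_[p]) : ℚ_[p])) =
        (n : ℚ_[p]) ^ 2 * ((3 * e ^ 2 - 28 * e + 1 : ℤ_[p]) : ℚ_[p]) := by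
      have e2 : (n : ℚ_[p]) * ((X - e : ℤ_[p]) : ℚ_[p]) = x - n * (e : ℚ_[p]) := by
        rw [hxX]
        push_cast
        ring
      rw [e2, hx3]
      push_cast
      rw [c3, c28]
      ring
    have hu : ‖(3 * e ^ 2 - 28 * e + 1 : ℤ_[p])‖ = 1 := by
      refine le_antisymm (PadicInt.norm_le_one _) (not_lt.1 fun hc => he ?_)
      exact toZMod_eq_zero.2 hc
    have e3 := congrArg (fun z : ℚ_[p] => ‖z‖) e1
    simp only [norm_mul, norm_pow, hN, PadicInt.padic_norm_e_of_padicInt] at e3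
    rw [hu] at e3
    have e4 : ‖x3 - n * (e : ℚ_[p])‖ < 1 := lsub hlt (lmul' hN1 (PadicInt.norm_le_one e))
    have hd'' : ‖X - e‖ ≤ (p : ℝ)⁻¹ := hd'
    have e5 : ‖x3 - n * (e : ℚ_[p])‖ * ((p : ℝ)⁻¹ * ‖X - e‖) ≤
        ‖x3 - n * (e : ℚ_[p])‖ * ((p : ℝ)⁻¹ * (p : ℝ)⁻¹) := by gcongr
    have e6 : ‖x3 - n * (e : ℚ_[p])‖ * ((p : ℝ)⁻¹ * (p : ℝ)⁻¹) < 1 * ((p : ℝ)⁻¹ * (p : ℝ)⁻¹) :=
      mul_lt_mul_of_pos_right e4 (by positivity)
    rw [e3] at e5
    nlinarith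

theorem zero_pt (hn0 : n ≠ 0) :
    ((WC n).map (Int.castRingHom ℚ_[p])).toAffine.Nonsingular (n * ((0 : ℤ_[p]) : ℚ_[p])) 0 :=
  nons hn0 (by push_cast; ring)

/-- points of order two have singular reduction -/
theorem tors_sing (h3 : p ≠ 3) (hs : Squarefree n) (hpn : p ∣ n) {P : PtP (WC n) p}
    (hP0 : P ≠ 0) (hP : P + P = 0) : P ∉ E0 (WC n) p := by
  have hN := norm_n (p := p) hs hpn
  have hN1 : ‖(n : ℚ_[p])‖ < 1 := by rw [hN]; exact inv_lt_one
  have hk : ∀ k : ℤ, ‖(k : ℚ_[p])‖ ≤ 1 := fun k => Padic.norm_int_le_one k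
  rcases P with _ | ⟨x, y, h⟩
  · exact absurd rfl hP0
  have hy := (isCp n).y_of_dbl two_ne_zero h hP
  subst hy
  rw [mem_E0, not_not, sing_ram h3 hN1 h]
  have hE := (isCp n).eqn.1 h.1
  by_contra hc
  have hc := not_lt.1 hc
  have e1 : x ^ 3 = -((((-14 : ℤ) : ℚ_[p]) * x ^ 2 + n * x) * n) := by
    push_cast
    linear_combination -hE
  have e2 : ‖x‖ ^ 3 ≤ ‖x‖ ^ 2 * ‖(n : ℚ_[p])‖ := by
    rw [← norm_pow, e1, norm_neg, norm_mul]
    refine mul_le_mul_of_nonneg_right ?_ (norm_nonneg _)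
    refine (Padic.nonarchimedean _ _).trans (max_le ?_ ?_)
    · rw [norm_mul, norm_pow]
      exact mul_le_of_le_one_left (by positivity) (hk _)
    · rw [norm_mul]
      nlinarith [norm_nonneg (n : ℚ_[p])]
  have e3 : 0 < ‖x‖ ^ 2 := by positivity
  nlinarith

/-- **Tamagawa number two** -/
theorem ram_two (h2 : p ≠ 2) (h3 : p ≠ 3) (hs : Squarefree n) (hpn : p ∣ n)
    (hsq : ¬ IsSquare (3 : ZMod p)) : tam (WC n) p = 2 := by
  have hn0 : n ≠ 0 := hs.ne_zero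
  have hN := norm_n (p := p) hs hpn
  have hN1 : ‖(n : ℚ_[p])‖ < 1 := by rw [hN]; exact inv_lt_one
  rw [tam, AddSubgroup.index_eq_two_iff_exists_notMem_and]
  refine ⟨Affine.Point.some _ _ (zero_pt hn0), ?_, fun P => ?_⟩
  · refine tors_sing h3 hs hpn (Affine.Point.some_ne_zero _) ((isCp n).dbl _)
  · rcases P with _ | ⟨x, y, h⟩
    · exact Or.inr (E0 (WC n) p).zero_mem
    by_cases hx : ‖x‖ < 1
    · left
      obtain ⟨X, hxX, hX⟩ := key_ram hs hpn h hx
      refine shift h3 hs hpn h hxX ?_ (zero_pt hn0) (by simp)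
      rw [map_zero]
      rcases mul_eq_zero.1 hX with hX | hX
      · exact hX
      · exfalso
        apply hsq
        have h4 : (4 : ZMod p) ≠ 0 := by
          have h22 : (2 : ZMod p) ≠ 0 := by
            have := (ZMod.natCast_eq_zero_iff 2 p).not.2 (fun hd =>
              h2 ((Nat.prime_dvd_prime_iff_eq hp.out Nat.prime_two).1 hd))
            exact_mod_cast this
          have : (4 : ZMod p) = 2 * 2 := by norm_num
          rw [this]
          exact mul_ne_zero h22 h22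
        refine ⟨(PadicInt.toZMod X - 7) / 4, ?_⟩
        field_simp
        linear_combination -hX
    · right
      rw [mem_E0, sing_ram h3 hN1 h]
      exact hx

/-- a square root of three -/
theorem sqrt3 (h2 : p ≠ 2) (h3 : p ≠ 3) (hsq : IsSquare (3 : ZMod p)) :
    ∃ s : ℤ_[p], s ^ 2 = 3 := by
  obtain ⟨a, ha⟩ := hsq
  obtain ⟨b, hb⟩ : ∃ b : ℤ_[p], PadicInt.toZMod b = a := ⟨(a.val : ℤ_[p]), by
    rw [map_natCast, ZMod.natCast_zmod_val]⟩
  have h22 : (2 : ZMod p) ≠ 0 := by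
    have := (ZMod.natCast_eq_zero_iff 2 p).not.2 (fun hd =>
      h2 ((Nat.prime_dvd_prime_iff_eq hp.out Nat.prime_two).1 hd))
    exact_mod_cast this
  have h33 : (3 : ZMod p) ≠ 0 := by
    have := (ZMod.natCast_eq_zero_iff 3 p).not.2 (fun hd =>
      h3 ((Nat.prime_dvd_prime_iff_eq hp.out Nat.prime_three).1 hd))
    exact_mod_cast this
  have ha0 : a ≠ 0 := by
    intro h0
    rw [h0, mul_zero] at ha
    exact h33 ha
  have e1 : ‖b ^ 2 - 3‖ < 1 := by
    rw [← toZMod_eq_zero, map_sub, map_pow, hb, map_ofNat, ha]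
    ring
  have e2 : ‖2 * b‖ = 1 := by
    refine le_antisymm (PadicInt.norm_le_one _) (not_lt.1 fun hc => ?_)
    rw [← toZMod_eq_zero, map_mul, hb, map_ofNat] at hc
    exact mul_ne_zero h22 ha0 hc
  obtain ⟨z, hz, -⟩ := hensels_lemma (p := p) (R := ℤ_[p])
    (F := (Polynomial.X ^ 2 - Polynomial.C (3 : ℤ_[p]))) (a := b) (by
      simp only [map_sub, map_pow, Polynomial.aeval_X, Polynomial.aeval_C,
        Polynomial.derivative_X_pow, Polynomial.derivative_C, sub_zero, map_mul]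
      simp only [Nat.cast_ofNat, Algebra.algebraMap_self,
        map_ofNat, Nat.add_one_sub_one, pow_one]
      rw [e2]
      norm_num
      exact e1)
  refine ⟨z, ?_⟩
  simp only [map_sub, map_pow, Polynomial.aeval_X, Polynomial.aeval_C, Algebra.algebraMap_self,
    RingHom.id_apply] at hz
  exact sub_eq_zero.1 hz

/-- **Tamagawa number four** -/
theorem ram_four (h2 : p ≠ 2) (h3 : p ≠ 3) (hs : Squarefree n) (hpn : p ∣ n)
    (hsq : IsSquare (3 : ZMod p)) : tam (WC n) p = 4 := by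
  have hn0 : n ≠ 0 := hs.ne_zero
  have hN := norm_n (p := p) hs hpn
  have hN1 : ‖(n : ℚ_[p])‖ < 1 := by rw [hN]; exact inv_lt_one
  have hnq : (n : ℚ_[p]) ≠ 0 := by exact_mod_cast hn0
  obtain ⟨s, hs3⟩ := sqrt3 h2 h3 hsq
  have hsq3 : (s : ℚ_[p]) ^ 2 = 3 := by
    have := congrArg (fun z : ℤ_[p] => (z : ℚ_[p])) hs3
    push_cast at this
    exact this
  have h22 : (2 : ZMod p) ≠ 0 := by
    have := (ZMod.natCast_eq_zero_iff 2 p).not.2 (fun hd =>
      h2 ((Nat.prime_dvd_prime_iff_eq hp.out Nat.prime_two).1 hd))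
    exact_mod_cast this
  have h33 : (3 : ZMod p) ≠ 0 := by
    have := (ZMod.natCast_eq_zero_iff 3 p).not.2 (fun hd =>
      h3 ((Nat.prime_dvd_prime_iff_eq hp.out Nat.prime_three).1 hd))
    exact_mod_cast this
  have hsz : PadicInt.toZMod s ^ 2 = 3 := by
    rw [← map_pow, hs3, map_ofNat]
  have hs0 : (s : ℚ_[p]) ≠ 0 := by
    intro h0
    rw [h0] at hsq3
    norm_num at hsq3
  have nT : ∀ ε : ℤ_[p], ε ^ 2 = 1 → ((WC n).map (Int.castRingHom ℚ_[p])).toAffine.Nonsingular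
      (n * ((7 + 4 * ε * s : ℤ_[p]) : ℚ_[p])) 0 := by
    intro ε hε
    have hε' : (ε : ℚ_[p]) ^ 2 = 1 := by
      have := congrArg (fun z : ℤ_[p] => (z : ℚ_[p])) hε
      push_cast at this
      exact this
    refine nons hn0 ?_
    push_cast
    rw [c7, c4]
    linear_combination (-(n : ℚ_[p]) ^ 3 * (7 + 4 * ε * s) * 16 * s ^ 2) * hε' -
      ((n : ℚ_[p]) ^ 3 * (7 + 4 * ε * s) * 16) * hsq3
  have dT : ∀ ε : ℤ_[p], ε ^ 2 = 1 → PadicInt.toZMod (3 * (7 + 4 * ε * s) ^ 2 -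
      28 * (7 + 4 * ε * s) + 1) ≠ 0 := by
    intro ε hε h0
    simp only [map_add, map_sub, map_mul, map_pow, map_one, map_ofNat] at h0
    have hεz : PadicInt.toZMod ε ^ 2 = 1 := by rw [← map_pow, hε, map_one]
    have e1 : (2 : ZMod p) ^ 3 * (12 + 7 * PadicInt.toZMod ε * PadicInt.toZMod s) = 0 := by
      linear_combination h0 - 48 * PadicInt.toZMod s ^ 2 * hεz - 48 * hsz
    have e2 := (mul_eq_zero.1 e1).resolve_left (pow_ne_zero 3 h22)
    apply h33
    linear_combination (-(12 - 7 * PadicInt.toZMod ε * PadicInt.toZMod s)) * e2 -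
      49 * PadicInt.toZMod s ^ 2 * hεz - 49 * hsz
  have e1 : ((1 : ℤ_[p])) ^ 2 = 1 := one_pow 2
  have e2 : ((-1 : ℤ_[p])) ^ 2 = 1 := by ring
  let T : Fin 4 → PtP (WC n) p := ![0, Affine.Point.some _ _ (zero_pt hn0),
    Affine.Point.some _ _ (nT 1 e1), Affine.Point.some _ _ (nT (-1) e2)]
  have hT2 : ∀ i, T i + T i = 0 := by
    intro i
    fin_cases i
    · exact add_zero 0
    · exact (isCp n).dbl _
    · exact (isCp n).dbl _
    · exact (isCp n).dbl _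
  have x12 : (n : ℚ_[p]) * ((0 : ℤ_[p]) : ℚ_[p]) ≠ n * ((7 + 4 * 1 * s : ℤ_[p]) : ℚ_[p]) := by
    intro h
    have h' := mul_left_cancel₀ hnq h
    push_cast at h'
    rw [c7, c4] at h'
    have : (1 : ℚ_[p]) = 0 := by
      linear_combination (-(7 - 4 * (s : ℚ_[p]))) * h' + 16 * hsq3
    exact one_ne_zero this
  have x13 : (n : ℚ_[p]) * ((0 : ℤ_[p]) : ℚ_[p]) ≠ n * ((7 + 4 * (-1) * s : ℤ_[p]) : ℚ_[p]) := by
    intro h
    have h' := mul_left_cancel₀ hnq h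
    push_cast at h'
    rw [c7, c4] at h'
    have : (1 : ℚ_[p]) = 0 := by
      linear_combination (-(7 + 4 * (s : ℚ_[p]))) * h' + 16 * hsq3
    exact one_ne_zero this
  have x23 : (n : ℚ_[p]) * ((7 + 4 * 1 * s : ℤ_[p]) : ℚ_[p]) ≠
      n * ((7 + 4 * (-1) * s : ℤ_[p]) : ℚ_[p]) := by
    intro h
    have h' := mul_left_cancel₀ hnq h
    push_cast at h'
    rw [c7, c4] at h'
    have : (s : ℚ_[p]) = 0 := by linear_combination (1 / 8) * h'
    exact hs0 this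
  have hTinj : Function.Injective T := by
    intro i j hij
    fin_cases i <;> fin_cases j
    · rfl
    · exact absurd hij.symm (Affine.Point.some_ne_zero _)
    · exact absurd hij.symm (Affine.Point.some_ne_zero _)
    · exact absurd hij.symm (Affine.Point.some_ne_zero _)
    · exact absurd hij (Affine.Point.some_ne_zero _)
    · rfl
    · exact absurd (Affine.Point.some.inj hij).1 x12
    · exact absurd (Affine.Point.some.inj hij).1 x13
    · exact absurd hij (Affine.Point.some_ne_zero _)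
    · exact absurd (Affine.Point.some.inj hij).1.symm x12
    · rfl
    · exact absurd (Affine.Point.some.inj hij).1 x23
    · exact absurd hij (Affine.Point.some_ne_zero _)
    · exact absurd (Affine.Point.some.inj hij).1.symm x13
    · exact absurd (Affine.Point.some.inj hij).1.symm x23
    · rfl
  refine index_of (E0 (WC n) p) T hT2 ?_ ?_
  · intro P
    rcases P with _ | ⟨x, y, h⟩
    · exact ⟨0, (E0 (WC n) p).zero_mem⟩
    by_cases hx : ‖x‖ < 1
    · obtain ⟨X, hxX, hX⟩ := key_ram hs hpn h hx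
      rcases mul_eq_zero.1 hX with hX | hX
      · exact ⟨1, shift h3 hs hpn h hxX (by rw [hX, map_zero]) (zero_pt hn0) (by simp)⟩
      · have e3 : (PadicInt.toZMod X - (7 + 4 * PadicInt.toZMod s)) *
            (PadicInt.toZMod X - (7 - 4 * PadicInt.toZMod s)) = 0 := by
          linear_combination hX - 16 * hsz
        rcases mul_eq_zero.1 e3 with e4 | e4
        · refine ⟨2, shift h3 hs hpn h hxX ?_ (nT 1 e1) (dT 1 e1)⟩
          simp only [map_add, map_mul, map_one, map_ofNat]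
          linear_combination e4
        · refine ⟨3, shift h3 hs hpn h hxX ?_ (nT (-1) e2) (dT (-1) e2)⟩
          simp only [map_add, map_mul, map_one, map_ofNat, map_neg]
          linear_combination e4
    · refine ⟨0, ?_⟩
      have : T 0 = 0 := rfl
      rw [this, add_zero, mem_E0, sing_ram h3 hN1 h]
      exact hx
  · intro i j hij
    by_contra hne
    have h1 : T i + T j ≠ 0 := by
      intro h
      apply hne
      apply hTinj
      have h2 := hT2 j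
      have h3 : T i = -T j := eq_neg_of_add_eq_zero_left h
      have h4 : T j = -T j := eq_neg_of_add_eq_zero_left h2
      rw [h3, ← h4]
    have h2 : (T i + T j) + (T i + T j) = 0 := by
      have e : (T i + T j) + (T i + T j) = (T i + T i) + (T j + T j) := by abel
      rw [e, hT2, hT2, add_zero]
    exact tors_sing h3 hs hpn h1 h2 hij

end ram

/-- SN-TC: the Tamagawa numbers of `WC n` -/
theorem t_TC : S_TC := by
  rintro n ⟨hs, hn⟩ p hp
  have hn0 : n ≠ 0 := hs.ne_zero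
  constructor
  · apply final
    unfold cC
    by_cases h2 : p = 2
    · subst h2
      rw [if_pos rfl]
      exact two (by omega)
    rw [if_neg h2]
    by_cases hpn : p ∣ n
    · rw [if_pos hpn]
      have h3 : p ≠ 3 := by
        rintro rfl
        omega
      by_cases hsq : IsSquare (3 : ZMod p)
      · rw [if_pos hsq]
        exact ram_four h2 h3 hs hpn hsq
      · rw [if_neg hsq]
        exact ram_two h2 h3 hs hpn hsq
    · rw [if_neg hpn]
      by_cases h3 : p = 3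
      · subst h3
        exact three (by omega)
      · apply t_TGOOD
        rw [Delta]
        intro hd
        have hpp : Prime (p : ℤ) := Nat.prime_iff_prime_int.1 hp.out
        rcases hpp.dvd_or_dvd hd with h | h
        · have e1 : (3072 : ℤ) = 2 ^ 10 * 3 := by norm_num
          rw [e1] at h
          rcases hpp.dvd_or_dvd h with h | h
          · have := hpp.dvd_of_dvd_pow h
            have h5 : p ∣ 2 := by exact_mod_cast this
            exact h2 ((Nat.prime_dvd_prime_iff_eq hp.out Nat.prime_two).1 h5)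
          · have h5 : p ∣ 3 := by exact_mod_cast h
            exact h3 ((Nat.prime_dvd_prime_iff_eq hp.out Nat.prime_three).1 h5)
        · have := hpp.dvd_of_dvd_pow h
          exact hpn (by exact_mod_cast this)
  · intro hd
    rw [Delta] at hd
    unfold cC
    have h2 : p ≠ 2 := by
      rintro rfl
      apply hd
      push_cast
      exact Dvd.dvd.mul_right (by norm_num) _
    have hpn : ¬ p ∣ n := by
      intro h
      apply hd
      apply Dvd.dvd.mul_left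
      exact Dvd.dvd.pow (by exact_mod_cast h) (by norm_num)
    rw [if_neg h2, if_neg hpn]

end Pool.Agent.N271.SN
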